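import Mathlib

/-!
# Two-sided upper conical density for non-atomic measures

For every `n` and `0 < α ≤ 1` there is a constant `c > 0` such that for every finite non-atomic
Borel measure `μ` on `ℝⁿ` and `μ`-almost every `x` there is a direction `θ` such that both
opposite one-sided cones of opening `α` at `x` carry at least the proportion `c` of the mass of
`B(x,r)` for arbitrarily small `r`.
-/

set_option autoImplicit false

open MeasureTheory Set Filter Topology Metric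
open scoped ENNReal

namespace Pool.Agent.Results.MP_acc68d_an.TwoSided

/-- Euclidean `n`-space. -/
abbrev E (n : ℕ) := EuclideanSpace ℝ (Fin n)

variable {n : ℕ}

/-- The open cone `H(x, θ, β) = {y : (y - x) · θ > β |y - x|}`. -/
def H (x θ : E n) (β : ℝ) : Set (E n) := {y | inner ℝ (y - x) θ > β * ‖y - x‖}

/-- The truncated one-sided cone `X⁺(x, r, θ, α) = B(x, r) ∩ H(x, θ, (1 - α²)^{1/2})`. -/
def X (x : E n) (r : ℝ) (θ : E n) (α : ℝ) : Set (E n) :=
  closedBall x r ∩ H x θ (Real.sqrt (1 - α ^ 2))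

lemma mem_H {x θ : E n} {β : ℝ} {y : E n} : y ∈ H x θ β ↔ β * ‖y - x‖ < inner ℝ (y - x) θ :=
  Iff.rfl

lemma mem_H_swap {x y θ : E n} {β : ℝ} : y ∈ H x θ β ↔ x ∈ H y (-θ) β := by
  rw [mem_H, mem_H, norm_sub_rev, inner_neg_right, ← inner_neg_left, neg_sub]

lemma preim_left (x θ : E n) (β : ℝ) :
    Prod.mk x ⁻¹' {p : E n × E n | p.2 ∈ H p.1 θ β} = H x θ β := rfl

lemma preim_right (y θ : E n) (β : ℝ) :
    (fun x => (x, y)) ⁻¹' {p : E n × E n | p.2 ∈ H p.1 θ β} = H y (-θ) β := by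
  apply Set.ext
  intro x
  rw [← mem_H_swap]
  rfl

lemma measurableSet_G (θ : E n) (β : ℝ) : MeasurableSet {p : E n × E n | p.2 ∈ H p.1 θ β} := by
  apply IsOpen.measurableSet
  have : {p : E n × E n | p.2 ∈ H p.1 θ β} =
      {p : E n × E n | β * ‖p.2 - p.1‖ < inner ℝ (p.2 - p.1) θ} := rfl
  rw [this]
  exact isOpen_lt (by fun_prop) (by fun_prop)

lemma measurable_H (ν : Measure (E n)) [IsFiniteMeasure ν] (θ : E n) (β : ℝ) :
    Measurable fun x => ν (H x θ β) :=
  measurable_measure_prodMk_left (measurableSet_G θ β)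

lemma class_bound (ν : Measure (E n)) [IsFiniteMeasure ν] [NullSingletonClass ν] (T : Finset (E n)) (β : ℝ)
    (hT : ∀ v : E n, v ≠ 0 → ∃ θ ∈ T, β * ‖v‖ < inner ℝ v θ)
    (c : ℝ≥0∞) (A : Set (E n)) (hA : MeasurableSet A)
    (h : ∀ θ ∈ T, (∀ x ∈ A, ν (H x θ β) ≤ c) ∨ (∀ x ∈ A, ν (H x (-θ) β) ≤ c)) :
    ν A ≤ T.card * c := by
  set ν' := ν.restrict A with hν'
  have hle : ∀ s, ν' s ≤ ν s := fun s => by
    rw [hν']; exact Measure.restrict_apply_le _ _
  set P := ν'.prod ν' with hP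
  have hPu : P univ = ν A * ν A := by
    rw [hP, ← univ_prod_univ, Measure.prod_prod, hν', Measure.restrict_apply_univ]
  have hsub : (univ : Set (E n × E n)) ⊆
      diagonal (E n) ∪ ⋃ θ ∈ T, {p : E n × E n | p.2 ∈ H p.1 θ β} := by
    rintro ⟨x, y⟩ -
    by_cases hxy : x = y
    · left; exact hxy
    · right
      obtain ⟨θ, hθ, h1⟩ := hT (y - x) (sub_ne_zero.mpr (Ne.symm hxy))
      simp only [mem_iUnion, exists_prop]
      exact ⟨θ, hθ, h1⟩
  have hdiag : P (diagonal (E n)) = 0 := by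
    rw [hP, Measure.prod_apply measurableSet_diagonal]
    have : ∀ x : E n, (Prod.mk x ⁻¹' diagonal (E n)) = {x} := by
      intro x; ext y; simp [eq_comm]
    simp [this]
  have hG : ∀ θ ∈ T, P {p : E n × E n | p.2 ∈ H p.1 θ β} ≤ c * ν A := by
    intro θ hθ
    rcases h θ hθ with h1 | h1
    · rw [hP, Measure.prod_apply (measurableSet_G θ β)]
      calc ∫⁻ x, ν' (Prod.mk x ⁻¹' {p : E n × E n | p.2 ∈ H p.1 θ β}) ∂ν'
          ≤ ∫⁻ x, c ∂ν' := by
            apply lintegral_mono_ae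
            filter_upwards [ae_restrict_mem hA] with x hx
            rw [preim_left]
            exact (hle _).trans (h1 x hx)
        _ = c * ν A := by rw [lintegral_const, hν', Measure.restrict_apply_univ]
    · rw [hP, Measure.prod_apply_symm (measurableSet_G θ β)]
      calc ∫⁻ y, ν' ((fun x => (x, y)) ⁻¹' {p : E n × E n | p.2 ∈ H p.1 θ β}) ∂ν'
          ≤ ∫⁻ x, c ∂ν' := by
            apply lintegral_mono_ae
            filter_upwards [ae_restrict_mem hA] with y hy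
            rw [preim_right]
            exact (hle _).trans (h1 y hy)
        _ = c * ν A := by rw [lintegral_const, hν', Measure.restrict_apply_univ]
  have hfin : ν A * ν A ≤ (T.card * c) * ν A := by
    calc ν A * ν A = P univ := hPu.symm
      _ ≤ P (diagonal (E n) ∪ ⋃ θ ∈ T, {p : E n × E n | p.2 ∈ H p.1 θ β}) := measure_mono hsub
      _ ≤ P (diagonal (E n)) + P (⋃ θ ∈ T, {p : E n × E n | p.2 ∈ H p.1 θ β}) :=
          measure_union_le _ _
      _ ≤ 0 + ∑ θ ∈ T, P {p : E n × E n | p.2 ∈ H p.1 θ β} := by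
          gcongr
          · exact hdiag.le
          · exact measure_biUnion_finset_le _ _
      _ ≤ 0 + ∑ θ ∈ T, c * ν A := by
          gcongr with θ hθ
          exact hG θ hθ
      _ = (T.card * c) * ν A := by
          rw [zero_add, Finset.sum_const, nsmul_eq_mul, mul_assoc]
  by_cases h0 : ν A = 0
  · rw [h0]; exact zero_le
  · exact (ENNReal.mul_le_mul_iff_left h0 (measure_ne_top ν A)).mp hfin

lemma total_bound (ν : Measure (E n)) [IsFiniteMeasure ν] [NullSingletonClass ν] (T : Finset (E n)) (β : ℝ)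
    (hT : ∀ v : E n, v ≠ 0 → ∃ θ ∈ T, β * ‖v‖ < inner ℝ v θ)
    (c : ℝ≥0∞) (A : Set (E n)) (hA : MeasurableSet A)
    (h : ∀ x ∈ A, ∀ θ ∈ T, ν (H x θ β) ≤ c ∨ ν (H x (-θ) β) ≤ c) :
    ν A ≤ 2 ^ T.card * (T.card * c) := by
  classical
  set B : Finset (E n) → Set (E n) :=
    fun S => A ∩ ⋂ θ ∈ T, {x | θ ∈ S ↔ ν (H x θ β) ≤ c} with hB
  have hBm : ∀ S, MeasurableSet (B S) := by
    intro S
    refine hA.inter (Finset.measurableSet_biInter T fun θ _ => ?_)
    by_cases hθ : θ ∈ S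
    · simp only [hθ, true_iff]
      exact measurableSet_le (measurable_H ν θ β) measurable_const
    · simp only [hθ, false_iff, not_le]
      exact measurableSet_lt measurable_const (measurable_H ν θ β)
  have hsub : A ⊆ ⋃ S ∈ T.powerset, B S := by
    intro x hx
    simp only [mem_iUnion, exists_prop]
    refine ⟨T.filter fun θ => ν (H x θ β) ≤ c, Finset.mem_powerset.mpr (Finset.filter_subset _ _),
      hx, ?_⟩
    simp only [mem_iInter]
    intro θ hθ
    simp [hθ]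
  have hbd : ∀ S ∈ T.powerset, ν (B S) ≤ T.card * c := by
    intro S _
    refine class_bound ν T β hT c (B S) (hBm S) fun θ hθ => ?_
    by_cases hS : θ ∈ S
    · left
      intro x hx
      have := mem_iInter₂.mp hx.2 θ hθ
      exact this.mp hS
    · right
      intro x hx
      have h1 := mem_iInter₂.mp hx.2 θ hθ
      rcases h x hx.1 θ hθ with h2 | h2
      · exact absurd (h1.mpr h2) hS
      · exact h2
  calc ν A ≤ ν (⋃ S ∈ T.powerset, B S) := measure_mono hsub
    _ ≤ ∑ S ∈ T.powerset, ν (B S) := measure_biUnion_finset_le _ _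
    _ ≤ ∑ S ∈ T.powerset, (T.card * c) := Finset.sum_le_sum hbd
    _ = 2 ^ T.card * (T.card * c) := by
        rw [Finset.sum_const, Finset.card_powerset, nsmul_eq_mul]; push_cast; rfl

/-- Finitely many directions suffice. -/
lemma exists_directions (β : ℝ) (hβ : β < 1) : ∃ T : Finset (E n), (∀ θ ∈ T, ‖θ‖ = 1) ∧
    ∀ v : E n, v ≠ 0 → ∃ θ ∈ T, β * ‖v‖ < inner ℝ v θ := by
  have hc : IsCompact (sphere (0 : E n) 1) := isCompact_sphere 0 1
  obtain ⟨t, ht, hcov⟩ := hc.elim_nhds_subcover (fun θ => {v : E n | β < inner ℝ v θ}) (by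
    intro θ hθ
    apply IsOpen.mem_nhds
    · exact isOpen_lt continuous_const (by fun_prop)
    · simp only [mem_sphere_iff_norm, sub_zero] at hθ
      have : inner ℝ θ θ = (1 : ℝ) := by rw [real_inner_self_eq_norm_sq, hθ]; norm_num
      change β < inner ℝ θ θ
      rw [this]; exact hβ)
  refine ⟨t, fun θ hθ => by simpa using ht θ hθ, fun v hv => ?_⟩
  have hv0 : 0 < ‖v‖ := norm_pos_iff.mpr hv
  have : (‖v‖⁻¹ • v) ∈ sphere (0 : E n) 1 := by
    simp [norm_smul, hv0.ne']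
  obtain ⟨θ, hθ, h1⟩ := mem_iUnion₂.mp (hcov this)
  refine ⟨θ, hθ, ?_⟩
  have h2 : β < inner ℝ (‖v‖⁻¹ • v) θ := h1
  rw [inner_smul_left] at h2
  simp only [conj_trivial] at h2
  have h3 := mul_lt_mul_of_pos_right h2 hv0
  have h4 : ‖v‖⁻¹ * inner ℝ v θ * ‖v‖ = inner ℝ v θ := by field_simp
  linarith

/-- Doubling scales. -/
lemma doubling (μ : Measure (E n)) [IsFiniteMeasure μ] :
    ∀ᵐ x ∂μ, ∃ᶠ j : ℕ in atTop, μ.real (closedBall x (3 * (1 / 3) ^ j)) ≤
      (2 * 3 ^ n) * μ.real (closedBall x ((1 / 3) ^ j)) := by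
  filter_upwards [Besicovitch.ae_tendsto_rnDeriv (volume : Measure (E n)) μ,
    Measure.rnDeriv_lt_top (volume : Measure (E n)) μ] with x hx hlt
  by_contra hcon
  rw [not_frequently] at hcon
  set L := (volume : Measure (E n)).rnDeriv μ x with hL
  have hpow : Tendsto (fun j : ℕ => ((1 : ℝ) / 3) ^ j) atTop (𝓝[>] 0) := by
    rw [tendsto_nhdsWithin_iff]
    refine ⟨tendsto_pow_atTop_nhds_zero_of_lt_one (by norm_num) (by norm_num), ?_⟩
    exact Eventually.of_forall fun j => mem_Ioi.mpr (by positivity)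
  have hev := (hx.comp hpow).eventually_le_const
    (ENNReal.lt_add_right hlt.ne one_ne_zero : L < L + 1)
  have hKtop : L + 1 ≠ ⊤ := ENNReal.add_ne_top.mpr ⟨hlt.ne, ENNReal.one_ne_top⟩
  set K := (L + 1).toReal with hK
  set ω := (volume : Measure (E n)).real (ball (0 : E n) 1) with hω
  have hωpos : 0 < ω := by
    rw [hω, Measure.real]
    apply ENNReal.toReal_pos
    · exact (measure_ball_pos _ _ one_pos).ne'
    · exact measure_ball_lt_top.ne
  set b : ℕ → ℝ := fun j => μ.real (closedBall x ((1 / 3) ^ j)) with hb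
  have h1 : ∀ᶠ j : ℕ in atTop, ((1 : ℝ) / 3) ^ (j * n) * ω ≤ K * b j := by
    filter_upwards [hev] with j hj
    simp only [Function.comp_apply] at hj
    have h2 : (volume : Measure (E n)) (closedBall x ((1 / 3) ^ j)) ≤
        (L + 1) * μ (closedBall x ((1 / 3) ^ j)) := by
      rwa [ENNReal.div_le_iff_le_mul (Or.inr hKtop) (Or.inl (measure_ne_top _ _))] at hj
    have h3 := ENNReal.toReal_mono (ENNReal.mul_ne_top hKtop (measure_ne_top _ _)) h2
    rw [Measure.addHaar_closedBall _ _ (by positivity), ENNReal.toReal_mul, ENNReal.toReal_mul,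
      ENNReal.toReal_ofReal (by positivity), finrank_euclideanSpace_fin, ← pow_mul] at h3
    exact h3
  obtain ⟨J, hJ⟩ := eventually_atTop.mp (h1.and hcon)
  have h4 : ∀ m, (2 * 3 ^ n : ℝ) ^ m * b (J + m) ≤ b J := by
    intro m
    induction m with
    | zero => simp
    | succ m ih =>
      have h5 := (hJ (J + m + 1) (by omega)).2
      rw [not_le] at h5
      have h6 : (3 : ℝ) * (1 / 3) ^ (J + m + 1) = (1 / 3) ^ (J + m) := by
        rw [pow_succ]; ring
      rw [h6] at h5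
      have h7 : (2 * 3 ^ n : ℝ) * b (J + (m + 1)) ≤ b (J + m) := h5.le
      calc (2 * 3 ^ n : ℝ) ^ (m + 1) * b (J + (m + 1))
          = (2 * 3 ^ n : ℝ) ^ m * ((2 * 3 ^ n : ℝ) * b (J + (m + 1))) := by rw [pow_succ]; ring
        _ ≤ (2 * 3 ^ n : ℝ) ^ m * b (J + m) := by gcongr
        _ ≤ b J := ih
  have hK0 : 0 ≤ K := ENNReal.toReal_nonneg
  have h8 : ∀ m : ℕ, (2 : ℝ) ^ m * ((1 / 3) ^ (J * n) * ω) ≤ K * b J := by
    intro m
    have h9 := (hJ (J + m) (by omega)).1
    have h10 : (2 : ℝ) ^ m * ((1 / 3) ^ (J * n) * ω) =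
        (2 * 3 ^ n : ℝ) ^ m * ((1 / 3) ^ ((J + m) * n) * ω) := by
      have : (3 : ℝ) ^ n ≠ 0 := by positivity
      have e : (3 : ℝ) ^ (n * m) * (1 / 3) ^ (m * n) = 1 := by
        rw [mul_comm m n, ← mul_pow]; norm_num
      rw [mul_pow, ← pow_mul, add_mul, pow_add]
      calc (2 : ℝ) ^ m * ((1 / 3) ^ (J * n) * ω)
          = 2 ^ m * ((1 / 3) ^ (J * n) * ω) * 1 := by ring
        _ = 2 ^ m * ((1 / 3) ^ (J * n) * ω) * (3 ^ (n * m) * (1 / 3) ^ (m * n)) := by rw [e]
        _ = _ := by ring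
    rw [h10]
    calc (2 * 3 ^ n : ℝ) ^ m * ((1 / 3) ^ ((J + m) * n) * ω)
        ≤ (2 * 3 ^ n : ℝ) ^ m * (K * b (J + m)) := by gcongr
      _ = K * ((2 * 3 ^ n : ℝ) ^ m * b (J + m)) := by ring
      _ ≤ K * b J := by gcongr; exact h4 m
  have hpos : 0 < ((1 : ℝ) / 3) ^ (J * n) * ω := by positivity
  obtain ⟨m, hm⟩ := pow_unbounded_of_one_lt (K * b J / (((1 : ℝ) / 3) ^ (J * n) * ω))
    (by norm_num : (1 : ℝ) < 2)
  rw [div_lt_iff₀ hpos] at hm
  exact absurd (h8 m) (not_le.mpr hm)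

/-- the set of points that are bad at all scales `2 * 3^{-j}`, `j ≥ k` -/
def Bad (μ : Measure (E n)) (T : Finset (E n)) (α : ℝ) (c : ℝ≥0∞) (k : ℕ) : Set (E n) :=
  {x | ∀ j, k ≤ j → ∀ θ ∈ T,
    μ (X x (2 * (1 / 3) ^ j) θ α) ≤ c * μ (closedBall x (2 * (1 / 3) ^ j)) ∨
    μ (X x (2 * (1 / 3) ^ j) (-θ) α) ≤ c * μ (closedBall x (2 * (1 / 3) ^ j))}

lemma measurable_X (μ : Measure (E n)) [IsFiniteMeasure μ] (r : ℝ) (θ : E n) (α : ℝ) :
    Measurable fun x => μ (X x r θ α) := by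
  apply measurable_measure_prodMk_left (s := {p : E n × E n | p.2 ∈ X p.1 r θ α})
  have : {p : E n × E n | p.2 ∈ X p.1 r θ α} =
      {p : E n × E n | dist p.2 p.1 ≤ r} ∩
        {p : E n × E n | p.2 ∈ H p.1 θ (Real.sqrt (1 - α ^ 2))} := rfl
  rw [this]
  refine MeasurableSet.inter ?_ (measurableSet_G _ _)
  exact (isClosed_le (by fun_prop) continuous_const).measurableSet

lemma measurable_ball (μ : Measure (E n)) [IsFiniteMeasure μ] (r : ℝ) :
    Measurable fun x => μ (closedBall x r) := by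
  apply measurable_measure_prodMk_left (s := {p : E n × E n | p.2 ∈ closedBall p.1 r})
  have : {p : E n × E n | p.2 ∈ closedBall p.1 r} = {p : E n × E n | dist p.2 p.1 ≤ r} := rfl
  rw [this]
  exact (isClosed_le (by fun_prop) continuous_const).measurableSet

lemma measurableSet_Bad (μ : Measure (E n)) [IsFiniteMeasure μ] (T : Finset (E n)) (α : ℝ)
    (c : ℝ≥0∞) (k : ℕ) : MeasurableSet (Bad μ T α c k) := by
  have : Bad μ T α c k = ⋂ j : ℕ, ⋂ _ : k ≤ j, ⋂ θ ∈ T,
      ({x | μ (X x (2 * (1 / 3) ^ j) θ α) ≤ c * μ (closedBall x (2 * (1 / 3) ^ j))} ∪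
      {x | μ (X x (2 * (1 / 3) ^ j) (-θ) α) ≤ c * μ (closedBall x (2 * (1 / 3) ^ j))}) := by
    ext x
    simp only [Bad, mem_iInter, mem_union, Set.mem_ofPred_eq]
  rw [this]
  refine MeasurableSet.iInter fun j => MeasurableSet.iInter fun _ =>
    Finset.measurableSet_biInter T fun θ _ => ?_
  exact (measurableSet_le (measurable_X μ _ _ _) ((measurable_ball μ _).const_mul c)).union
    (measurableSet_le (measurable_X μ _ _ _) ((measurable_ball μ _).const_mul c))

lemma bad_null (μ : Measure (E n)) [IsFiniteMeasure μ] [NullSingletonClass μ] (T : Finset (E n))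
    (α : ℝ) (hT : ∀ v : E n, v ≠ 0 → ∃ θ ∈ T, Real.sqrt (1 - α ^ 2) * ‖v‖ < inner ℝ v θ)
    (c : ℝ) (hc : 0 < c) (hc2 : 2 ^ T.card * (T.card * (c * (2 * 3 ^ n))) ≤ 1 / 4) (k : ℕ) :
    μ (Bad μ T α (ENNReal.ofReal c) k) = 0 := by
  by_contra hne
  set A := Bad μ T α (ENNReal.ofReal c) k with hA
  have hAm : MeasurableSet A := measurableSet_Bad μ T α _ k
  have hdens := Besicovitch.ae_tendsto_measure_inter_div μ A
  have hdoub := ae_restrict_of_ae (s := A) (doubling μ)
  have hmem := ae_restrict_mem hAm (μ := μ)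
  have hne' : (ae (μ.restrict A)).NeBot := by
    rw [ae_neBot, Ne, Measure.restrict_eq_zero]
    exact hne
  obtain ⟨x₀, hd, hdb, hx₀⟩ := (hdens.and (hdoub.and hmem)).exists
  have hpow : Tendsto (fun j : ℕ => ((1 : ℝ) / 3) ^ j) atTop (𝓝[>] 0) := by
    rw [tendsto_nhdsWithin_iff]
    refine ⟨tendsto_pow_atTop_nhds_zero_of_lt_one (by norm_num) (by norm_num), ?_⟩
    exact Eventually.of_forall fun j => mem_Ioi.mpr (by positivity)
  have hev : ∀ᶠ j : ℕ in atTop, (1 / 2 : ℝ≥0∞) <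
      μ (A ∩ closedBall x₀ ((1 / 3) ^ j)) / μ (closedBall x₀ ((1 / 3) ^ j)) :=
    (hd.comp hpow).eventually_const_lt (by simp)
  obtain ⟨j, hj1, hj2, hj3⟩ := (hdb.and_eventually (hev.and (eventually_ge_atTop k))).exists
  set r : ℝ := (1 / 3) ^ j with hr
  have hr0 : 0 < r := by positivity
  set B₀ := closedBall x₀ r with hB₀
  set ν := μ.restrict (A ∩ B₀) with hν
  have hmB : MeasurableSet (A ∩ B₀) := hAm.inter measurableSet_closedBall
  have hkey : ν (A ∩ B₀) ≤ 2 ^ T.card * (T.card * (ENNReal.ofReal c * μ (closedBall x₀ (3 * r)))) := by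
    refine total_bound ν T (Real.sqrt (1 - α ^ 2)) hT _ (A ∩ B₀) hmB ?_
    intro x hx θ hθ
    have hxr : dist x x₀ ≤ r := hx.2
    have hsub : closedBall x (2 * r) ⊆ closedBall x₀ (3 * r) :=
      closedBall_subset_closedBall' (by linarith)
    have hcone : ∀ θ' : E n, ν (H x θ' (Real.sqrt (1 - α ^ 2))) ≤ μ (X x (2 * r) θ' α) := by
      intro θ'
      rw [hν, Measure.restrict_apply' hmB]
      apply measure_mono
      rintro y ⟨hy1, hy2, hy3⟩
      refine ⟨?_, hy1⟩
      have hyr : dist y x₀ ≤ r := hy3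
      rw [mem_closedBall]
      calc dist y x ≤ dist y x₀ + dist x₀ x := dist_triangle _ _ _
        _ ≤ r + r := by rw [dist_comm x₀ x]; linarith
        _ = 2 * r := by ring
    have hball : ENNReal.ofReal c * μ (closedBall x (2 * r)) ≤
        ENNReal.ofReal c * μ (closedBall x₀ (3 * r)) := by
      gcongr
    rcases hx.1 j hj3 θ hθ with h1 | h1
    · left
      exact (hcone θ).trans (h1.trans hball)
    · right
      exact (hcone (-θ)).trans (h1.trans hball)
  rw [hν, Measure.restrict_apply_self] at hkey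
  -- real version
  have hk2 : μ.real (A ∩ B₀) ≤ 2 ^ T.card * (T.card * (c * μ.real (closedBall x₀ (3 * r)))) := by
    have := ENNReal.toReal_mono (by finiteness) hkey
    simpa [Measure.real, ENNReal.toReal_mul, ENNReal.toReal_ofReal hc.le] using this
  have hk3 : μ.real B₀ / 2 < μ.real (A ∩ B₀) := by
    have h0 : μ B₀ ≠ 0 := by
      intro h0
      have : μ (A ∩ B₀) = 0 := measure_mono_null inter_subset_right h0
      rw [this, ENNReal.zero_div] at hj2
      exact not_lt_zero hj2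
    rw [ENNReal.lt_div_iff_mul_lt (Or.inl h0) (Or.inl (measure_ne_top _ _))] at hj2
    have := (ENNReal.toReal_lt_toReal (by finiteness) (measure_ne_top _ _)).mpr hj2
    rw [ENNReal.toReal_mul] at this
    simp only [Measure.real]
    have e : (1 / 2 : ℝ≥0∞).toReal = 1 / 2 := by simp
    rw [e] at this
    linarith
  have hB0 : 0 ≤ μ.real B₀ := measureReal_nonneg
  have h5 : 2 ^ T.card * (T.card * (c * μ.real (closedBall x₀ (3 * r)))) ≤
      2 ^ T.card * (T.card * (c * (2 * 3 ^ n * μ.real B₀))) := by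
    gcongr
  have h6 : 2 ^ T.card * (T.card * (c * (2 * 3 ^ n * μ.real B₀))) =
      (2 ^ T.card * (T.card * (c * (2 * 3 ^ n)))) * μ.real B₀ := by ring
  have h7 : (2 ^ T.card * (T.card * (c * (2 * 3 ^ n)))) * μ.real B₀ ≤ 1 / 4 * μ.real B₀ := by
    gcongr
  linarith

/-- **Q1, affirmative answer.** -/
theorem result : ∀ (n : ℕ) (α : ℝ), 0 < α → α ≤ 1 → ∃ c : ℝ, 0 < c ∧
    ∀ μ : Measure (E n), IsFiniteMeasure μ → (∀ x, μ {x} = 0) →
      ∀ᵐ x ∂μ, ∃ θ : E n, ‖θ‖ = 1 ∧
        ENNReal.ofReal c < limsup (fun r : ℝ =>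
          min (μ (X x r θ α)) (μ (X x r (-θ) α)) / μ (closedBall x r)) (𝓝[>] 0) := by
  intro n α hα hα1
  have hβ : Real.sqrt (1 - α ^ 2) < 1 := by
    rw [Real.sqrt_lt' one_pos]
    nlinarith
  obtain ⟨T, hT1, hT⟩ := exists_directions (n := n) _ hβ
  set M : ℝ := 2 ^ T.card * ((T.card + 1) * (2 * 3 ^ n)) with hM
  have hM0 : 0 < M := by positivity
  set c : ℝ := 1 / (4 * M) with hc
  have hc0 : 0 < c := by positivity
  have hc2 : 2 ^ T.card * (T.card * (c * (2 * 3 ^ n))) ≤ 1 / 4 := by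
    have h1 : 2 ^ T.card * (T.card * (c * (2 * 3 ^ n))) ≤
        2 ^ T.card * ((T.card + 1) * (c * (2 * 3 ^ n))) := by
      gcongr
      linarith
    have h2 : 2 ^ T.card * ((T.card + 1) * (c * (2 * 3 ^ n))) = c * M := by
      rw [hM]; ring
    have h3 : c * M = 1 / 4 := by rw [hc]; field_simp
    linarith
  refine ⟨c / 2, by positivity, fun μ hfin hat => ?_⟩
  have : NullSingletonClass μ := ⟨hat⟩
  have hnull : ∀ k, μ (Bad μ T α (ENNReal.ofReal c) k) = 0 :=
    fun k => bad_null μ T α hT c hc0 hc2 k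
  have hae : ∀ᵐ x ∂μ, ∀ k, x ∉ Bad μ T α (ENNReal.ofReal c) k := by
    rw [ae_all_iff]
    intro k
    rw [ae_iff]
    simpa using hnull k
  have hsupp := Besicovitch.ae_tendsto_measure_inter_div μ univ
  rw [Measure.restrict_univ] at hsupp
  filter_upwards [hae, hsupp] with x hx hsx
  have hfreq : ∃ θ ∈ T, ∃ᶠ j : ℕ in atTop,
      ENNReal.ofReal c * μ (closedBall x (2 * (1 / 3) ^ j)) ≤
        min (μ (X x (2 * (1 / 3) ^ j) θ α)) (μ (X x (2 * (1 / 3) ^ j) (-θ) α)) := by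
    by_contra hcon
    push Not at hcon
    have h1 : ∀ᶠ j : ℕ in atTop, ∀ θ ∈ T,
        min (μ (X x (2 * (1 / 3) ^ j) θ α)) (μ (X x (2 * (1 / 3) ^ j) (-θ) α)) <
        ENNReal.ofReal c * μ (closedBall x (2 * (1 / 3) ^ j)) := by
      rw [Filter.eventually_all_finset]
      intro θ hθ
      exact hcon θ hθ
    obtain ⟨k, hk⟩ := eventually_atTop.mp h1
    apply hx k
    intro j hj θ hθ
    rcases min_lt_iff.mp (hk j hj θ hθ) with h2 | h2
    · left; exact h2.le
    · right; exact h2.le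
  obtain ⟨θ, hθ, hf⟩ := hfreq
  refine ⟨θ, hT1 θ hθ, ?_⟩
  have hpow : Tendsto (fun j : ℕ => 2 * ((1 : ℝ) / 3) ^ j) atTop (𝓝[>] 0) := by
    rw [tendsto_nhdsWithin_iff]
    refine ⟨?_, Eventually.of_forall fun j => mem_Ioi.mpr (by positivity)⟩
    have := (tendsto_pow_atTop_nhds_zero_of_lt_one (r := (1 : ℝ) / 3)
      (by norm_num) (by norm_num)).const_mul 2
    simpa using this
  have hpos : ∀ᶠ j : ℕ in atTop, μ (closedBall x (2 * (1 / 3) ^ j)) ≠ 0 := by
    have h1 : ∀ᶠ j : ℕ in atTop, (0 : ℝ≥0∞) <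
        μ (univ ∩ closedBall x (2 * (1 / 3) ^ j)) / μ (closedBall x (2 * (1 / 3) ^ j)) :=
      (hsx.comp hpow).eventually_const_lt one_pos
    filter_upwards [h1] with j hj h0
    rw [univ_inter, h0, ENNReal.zero_div] at hj
    exact lt_irrefl _ hj
  have hf2 : ∃ᶠ j : ℕ in atTop, ENNReal.ofReal c ≤
      min (μ (X x (2 * (1 / 3) ^ j) θ α)) (μ (X x (2 * (1 / 3) ^ j) (-θ) α)) /
        μ (closedBall x (2 * (1 / 3) ^ j)) := by
    refine (hf.and_eventually hpos).mono ?_
    rintro j ⟨h1, h2⟩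
    rw [ENNReal.le_div_iff_mul_le (Or.inl h2) (Or.inl (measure_ne_top _ _))]
    exact h1
  have hf3 := hpow.frequently (p := fun r => ENNReal.ofReal c ≤
      min (μ (X x r θ α)) (μ (X x r (-θ) α)) / μ (closedBall x r)) hf2
  have h4 : ENNReal.ofReal c ≤ limsup (fun r : ℝ =>
      min (μ (X x r θ α)) (μ (X x r (-θ) α)) / μ (closedBall x r)) (𝓝[>] 0) :=
    le_limsup_of_frequently_le hf3
  refine lt_of_lt_of_le ?_ h4
  rw [ENNReal.ofReal_lt_ofReal_iff hc0]
  linarith

end Pool.Agent.Results.MP_acc68d_an.TwoSided
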